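import Pool.Agent.H62.UN.Targets

/-!
# MP_8b378c_ag: the general fibre of the conic bundle chart is integral (row REG)
-/

set_option autoImplicit false

namespace Pool.Agent.H49.UNT

open Polynomial Pool.Agent.H17.UN Pool.Agent.H62.UN

section

variable {k : Type} [Field k]

/-- The evaluation of the inner variable. -/
noncomputable def ev (a : k) : k[X][X] →+* k[X] := Polynomial.mapRingHom (Polynomial.evalRingHom a)

/-- The reduction of `dp`. -/
noncomputable def d0 (P Q : k[X]) (a : k) : k[X] := C (P.eval a) + C (Q.eval a) * X ^ 2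

/-- The ring of the fibre. -/
abbrev R0 (P Q : k[X]) (a : k) : Type := AdjoinRoot (X ^ 2 - C (d0 P Q a) : k[X][X])

theorem ev_dp (P Q : k[X]) (a : k) : ev a (dp P Q) = d0 P Q a := by
  simp [ev, dp, d0]

theorem ev_ker (a : k) (α : k[X][X]) (h : ev a α = 0) : ∃ β, α = C (X - C a) * β := by
  have h1 : (C (X - C a) : k[X][X]) ∣ α := by
    rw [Polynomial.C_dvd_iff_dvd_coeff]
    intro i
    rw [Polynomial.dvd_iff_isRoot, Polynomial.IsRoot.def]
    have h2 := congrArg (fun p : k[X] => p.coeff i) h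
    simpa [ev] using h2
  exact h1

theorem monic2 {R : Type} [CommRing R] [Nontrivial R] (D : R) : (X ^ 2 - C D : R[X]).Monic :=
  Polynomial.monic_X_pow_sub_C D (by norm_num)

theorem deg2 {R : Type} [CommRing R] [Nontrivial R] (D : R) : (X ^ 2 - C D : R[X]).degree = 2 :=
  Polynomial.degree_X_pow_sub_C (by norm_num) D

theorem lin_zero {R : Type} [CommRing R] [IsDomain R] (D : R) (u v : R)
    (h : AdjoinRoot.mk (X ^ 2 - C D : R[X]) (C u + C v * X) = 0) : u = 0 ∧ v = 0 := by
  rw [AdjoinRoot.mk_eq_zero] at h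
  have h0 : (C u + C v * X : R[X]) = 0 := by
    by_contra hne
    have h1 := Polynomial.degree_le_of_dvd h hne
    rw [deg2] at h1
    have h2 : (C u + C v * X : R[X]).degree ≤ 1 := by
      rw [add_comm]
      exact Polynomial.degree_linear_le
    have h3 := h1.trans h2
    exact absurd h3 (by decide)
  constructor
  · have := congrArg (fun p : R[X] => p.coeff 0) h0
    simpa using this
  · have := congrArg (fun p : R[X] => p.coeff 1) h0
    simpa [Polynomial.coeff_C] using this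

theorem notsq [CharZero k] (P Q : k[X]) (a : k) (hP : P.eval a ≠ 0) (hQ : Q.eval a ≠ 0) (r : k[X]) :
    r ^ 2 ≠ d0 P Q a := by
  intro h
  have hd : (d0 P Q a).natDegree = 2 := by
    unfold d0
    rw [add_comm]
    rw [Polynomial.natDegree_add_C]
    exact Polynomial.natDegree_C_mul_X_pow 2 _ hQ
  have hr : r.natDegree = 1 := by
    have := congrArg Polynomial.natDegree h
    rw [Polynomial.natDegree_pow, hd] at this
    omega
  have hr1 : r = C (r.coeff 1) * X + C (r.coeff 0) :=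
    Polynomial.eq_X_add_C_of_natDegree_le_one hr.le
  have e0 : (r ^ 2).coeff 0 = r.coeff 0 ^ 2 := by
    rw [sq, sq, Polynomial.mul_coeff_zero]
  have e1 : (r ^ 2).coeff 1 = 2 * r.coeff 0 * r.coeff 1 := by
    rw [sq, Polynomial.coeff_mul]
    simp [Finset.antidiagonal, Finset.Nat.antidiagonal_succ]
    ring
  have e2 : (d0 P Q a).coeff 0 = P.eval a := by simp [d0]
  have e3 : (d0 P Q a).coeff 1 = 0 := by
    simp [d0, Polynomial.coeff_C, Polynomial.coeff_X_pow]
  rw [h, e2] at e0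
  rw [h, e3] at e1
  have h0 : r.coeff 0 ≠ 0 := by
    intro h0
    rw [h0] at e0
    exact hP (by rw [e0]; ring)
  have h1 : r.coeff 1 ≠ 0 := by
    intro h1
    have : r.leadingCoeff = 0 := by rw [Polynomial.leadingCoeff, hr, h1]
    rw [Polynomial.leadingCoeff_eq_zero] at this
    rw [this] at hr
    simp at hr
  have : (2 : k) * r.coeff 0 * r.coeff 1 ≠ 0 := mul_ne_zero (mul_ne_zero two_ne_zero h0) h1
  exact this e1.symm

theorem dom [CharZero k] (P Q : k[X]) (a : k) (hP : P.eval a ≠ 0) (hQ : Q.eval a ≠ 0) :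
    IsDomain (R0 P Q a) := by
  apply AdjoinRoot.isDomain_of_prime
  apply Irreducible.prime
  have hm := monic2 (d0 P Q a)
  have hn : (X ^ 2 - C (d0 P Q a) : k[X][X]).natDegree = 2 :=
    Polynomial.natDegree_X_pow_sub_C
  rw [hm.irreducible_iff_roots_eq_zero_of_degree_le_three (by rw [hn]) (by rw [hn]; norm_num)]
  rw [Multiset.eq_zero_iff_forall_notMem]
  intro r hr
  have h1 := (Polynomial.mem_roots'.1 hr).2
  rw [Polynomial.IsRoot.def] at h1
  simp only [eval_sub, eval_pow, eval_X, eval_C] at h1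
  exact notsq P Q a hP hQ r (sub_eq_zero.1 h1)

/-- The reduction. -/
noncomputable def psi (P Q : k[X]) (a : k) : CR P Q →+* R0 P Q a :=
  AdjoinRoot.lift ((AdjoinRoot.of (X ^ 2 - C (d0 P Q a) : k[X][X])).comp (ev a))
    (AdjoinRoot.root _) (by
      have h1 := AdjoinRoot.eval₂_root (X ^ 2 - C (d0 P Q a) : k[X][X])
      simp only [eval₂_sub, eval₂_pow, eval₂_X, eval₂_C] at h1 ⊢
      rw [RingHom.comp_apply, ev_dp]
      exact h1)

theorem psi_of (P Q : k[X]) (a : k) (α : k[X][X]) :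
    psi P Q a (AdjoinRoot.of _ α) = AdjoinRoot.of _ (ev a α) := by
  unfold psi
  rw [AdjoinRoot.lift_of]
  rfl

theorem psi_root (P Q : k[X]) (a : k) :
    psi P Q a (AdjoinRoot.root _) = AdjoinRoot.root _ := by
  unfold psi
  rw [AdjoinRoot.lift_root]

theorem form (P Q : k[X]) (b : CR P Q) : ∃ α β : k[X][X],
    b = AdjoinRoot.of _ α + AdjoinRoot.of _ β * AdjoinRoot.root _ := by
  obtain ⟨f, rfl⟩ := AdjoinRoot.mk_surjective b
  have hm := monic2 (dp P Q)
  have h1 : AdjoinRoot.mk (X ^ 2 - C (dp P Q) : k[X][X][X]) f =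
      AdjoinRoot.mk _ (f %ₘ (X ^ 2 - C (dp P Q))) := by
    rw [AdjoinRoot.mk_eq_mk]
    have := Polynomial.modByMonic_add_div f (X ^ 2 - C (dp P Q) : k[X][X][X])
    refine ⟨f /ₘ (X ^ 2 - C (dp P Q)), ?_⟩
    linear_combination -this
  have h2 : (f %ₘ (X ^ 2 - C (dp P Q))).natDegree ≤ 1 := by
    have h3 := Polynomial.degree_modByMonic_lt f hm
    rw [deg2] at h3
    rw [Polynomial.natDegree_le_iff_degree_le]
    exact Order.le_of_lt_succ h3
  have h5 := Polynomial.eq_X_add_C_of_natDegree_le_one h2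
  refine ⟨(f %ₘ (X ^ 2 - C (dp P Q))).coeff 0, (f %ₘ (X ^ 2 - C (dp P Q))).coeff 1, ?_⟩
  rw [h1]
  conv_lhs => rw [h5]
  rw [map_add, map_mul, AdjoinRoot.mk_C, AdjoinRoot.mk_C, AdjoinRoot.mk_X, add_comm]

theorem xC_sub (P Q : k[X]) (a : k) : xC P Q - algebraMap k (CR P Q) a =
    AdjoinRoot.of _ (C (X - C a)) := by
  rw [map_sub C, map_sub]
  rfl

theorem ker_psi (P Q : k[X]) (a : k) :
    RingHom.ker (psi P Q a) = Ideal.span {xC P Q - algebraMap k (CR P Q) a} := by
  ext b
  rw [RingHom.mem_ker, Ideal.mem_span_singleton', xC_sub]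
  constructor
  · intro h
    obtain ⟨α, β, rfl⟩ := form P Q b
    rw [map_add, map_mul, psi_of, psi_of, psi_root] at h
    have h1 : AdjoinRoot.mk (X ^ 2 - C (d0 P Q a) : k[X][X]) (C (ev a α) + C (ev a β) * X) = 0 := by
      rw [map_add, map_mul, AdjoinRoot.mk_C, AdjoinRoot.mk_C, AdjoinRoot.mk_X]
      exact h
    obtain ⟨h2, h3⟩ := lin_zero _ _ _ h1
    obtain ⟨α', rfl⟩ := ev_ker a α h2
    obtain ⟨β', rfl⟩ := ev_ker a β h3
    refine ⟨AdjoinRoot.of _ α' + AdjoinRoot.of _ β' * AdjoinRoot.root _, ?_⟩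
    rw [map_mul, map_mul]
    ring
  · rintro ⟨c, rfl⟩
    rw [map_mul, psi_of]
    have : ev a (C (X - C a)) = 0 := by simp [ev]
    rw [this, map_zero, mul_zero]

end

theorem pf_REG : T_REG := by
  intro k _ _ P Q a h
  rw [eval_mul] at h
  have hP : P.eval a ≠ 0 := left_ne_zero_of_mul h
  have hQ : Q.eval a ≠ 0 := right_ne_zero_of_mul h
  haveI := dom P Q a hP hQ
  constructor
  · rw [← ker_psi]
    exact RingHom.ker_isPrime _
  · rw [← ker_psi, RingHom.mem_ker]
    intro h1
    have h2 : psi P Q a (zC P Q) = AdjoinRoot.of _ (ev a X) := psi_of P Q a X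
    rw [h2] at h1
    have h3 : AdjoinRoot.mk (X ^ 2 - C (d0 P Q a) : k[X][X]) (C (ev a X) + C 0 * X) = 0 := by
      rw [map_add, map_mul, AdjoinRoot.mk_C, AdjoinRoot.mk_C, map_zero, zero_mul, add_zero]
      exact h1
    have h4 := (lin_zero _ _ _ h3).1
    have h5 : ev a X = X := by simp [ev]
    rw [h5] at h4
    exact Polynomial.X_ne_zero h4

end Pool.Agent.H49.UNT
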